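import Pool.Agent.Q117.HH.E
import Pool.Agent.Results.MP_d03834_ag.EffectiveEveryField

set_option autoImplicit false

/-!
# The uniform Harbourne-Hirschowitz conjecture for one multiplicity `m` and EVERY number `n ≥ 10` of points at once

For a positive proportion of the multiplicities `m` of every long interval, and of the `m = f(k)` and the `m = f(p)`, `p` prime,
for every integral polynomial `f` of positive degree with positive leading coefficient, the assertion of Q1 holds with this `m`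
for EVERY number `n ≥ 10` of general points and EVERY degree; in particular the gaps between these `m` are bounded. The `n` for
which the assertion was open for all large `m` are the elements of `openN` (all between 10 and 35), and for every set `R` of them
without two elements whose product is a square, it holds for all `n ≥ 10` outside `openN ∖ R` for a proportion at least
`∏ n ∈ R, (1 - beta n)` of these multiplicities.
-/

namespace Pool.Agent.Results.MP_d03834_ag.AllNumbersOfPoints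

open Finset Filter Polynomial
open Pool.Agent.Q117.HH
open Pool.Agent.Results.MP_d03834_ag.EffectiveEveryField (curves Expected value Open)

/-- The assertion of Q1 for `n` points of multiplicity `m` and all degrees: there is a polynomial `Φ ≠ 0` with integral
coefficients in the coordinates of the points, such that over every field the space of forms has the expected dimension for all
configurations with `Φ(Y) ≠ 0` and all degrees `d`. -/
def Uniform (n m : ℕ) : Prop :=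
  ∃ Φ : MvPolynomial (Fin n × Fin 2) ℤ, Φ ≠ 0 ∧
    ∀ (L : Type) [Field L] (Y : Fin n → Fin 2 → L), value Φ Y ≠ 0 → ∀ d : ℕ, Expected Y m d

/-- The numbers `n` of points which are open. -/
def openN : Finset ℕ :=
  {10, 11, 12, 14, 15, 17, 18, 19, 20, 22, 23, 24, 26, 27, 28, 29, 30, 31, 32, 33, 34, 35}

/-- The bound for the proportion of the other multiplicities. -/
noncomputable def beta (n : ℕ) : ℝ := be {11, 15} n

theorem uniform_of {n m : ℕ} (hn : 10 ≤ n) (hm : 1 ≤ m) (h : ∀ d, ¬ Open n m d) : Uniform n m := by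
  obtain ⟨A, -, hA, Φ, hΦ, -, -, h1, -⟩ := EffectiveEveryField.result n m hn hm
  refine ⟨Φ, hΦ, fun L _ Y hY d => h1 L Y hY d fun hd => h d (hA d hd)⟩

theorem not_openN {n : ℕ} (hn : 10 ≤ n) (h : n ∉ openN) : 37 ≤ n ∨ n = 13 ∨ n = 21 ∨ IsSquare n := by
  by_contra hcon
  push Not at hcon
  obtain ⟨h1, h2, h3, h4⟩ := hcon
  have h16 : n ≠ 16 := fun h => h4 ⟨4, by omega⟩
  have h25 : n ≠ 25 := fun h => h4 ⟨5, by omega⟩
  have h36 : n ≠ 36 := fun h => h4 ⟨6, by omega⟩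
  unfold openN at h
  simp only [mem_insert, mem_singleton, not_or] at h
  omega

theorem openN_sq : ∀ r ∈ openN, ¬ IsSquare r := by decide +kernel

theorem openN_ten : ∀ r ∈ openN, 10 ≤ r := by decide +kernel

theorem openN_pair : ∀ r ∈ openN, ∀ s ∈ openN, r ≠ s → IsSquare (r * s) →
    (r = 12 ∧ s = 27) ∨ (r = 27 ∧ s = 12) ∨ (r = 18 ∧ s = 32) ∨ (r = 32 ∧ s = 18) := by decide +kernel

/-- **Main result.** -/
theorem result :
    -- every number of points at once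
    (∃ κ : ℝ, 0 < κ ∧ (∀ᶠ N : ℕ in atTop, ∀ x : ℕ,
      κ * N ≤ Set.ncard {m : ℕ | x < m ∧ m ≤ x + N ∧ ∀ n : ℕ, 10 ≤ n → Uniform n m}) ∧
      ∀ f : ℤ[X], 1 ≤ f.natDegree → 0 < f.leadingCoeff → ∀ᶠ N : ℕ in atTop,
      κ * N ≤ Set.ncard {k : ℕ | 1 ≤ k ∧ k ≤ N ∧ 0 < f.eval (k : ℤ) ∧
        ∀ n : ℕ, 10 ≤ n → Uniform n (f.eval (k : ℤ)).toNat} ∧
      κ * (Nat.primeCounting N : ℝ) ≤ Set.ncard {p : ℕ | p.Prime ∧ p ≤ N ∧ 0 < f.eval (p : ℤ) ∧
        ∀ n : ℕ, 10 ≤ n → Uniform n (f.eval (p : ℤ)).toNat}) ∧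
    -- the proportions
    (∀ R ⊆ openN, ¬ (12 ∈ R ∧ 27 ∈ R) → ¬ (18 ∈ R ∧ 32 ∈ R) → ∀ ε : ℝ, 0 < ε →
      (∀ᶠ N : ℕ in atTop, ∀ x : ℕ, (∏ n ∈ R, (1 - beta n) - ε) * N ≤
        Set.ncard {m : ℕ | x < m ∧ m ≤ x + N ∧ ∀ n : ℕ, 10 ≤ n → (n ∈ openN → n ∈ R) → Uniform n m}) ∧
      ∀ f : ℤ[X], 1 ≤ f.natDegree → 0 < f.leadingCoeff → ∀ᶠ N : ℕ in atTop,
      (∏ n ∈ R, (1 - beta n) - ε) * N ≤ Set.ncard {k : ℕ | 1 ≤ k ∧ k ≤ N ∧ 0 < f.eval (k : ℤ) ∧
        ∀ n : ℕ, 10 ≤ n → (n ∈ openN → n ∈ R) → Uniform n (f.eval (k : ℤ)).toNat} ∧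
      (∏ n ∈ R, (1 - beta n) - ε) * (Nat.primeCounting N : ℝ) ≤ Set.ncard {p : ℕ | p.Prime ∧ p ≤ N ∧
        0 < f.eval (p : ℤ) ∧ ∀ n : ℕ, 10 ≤ n → (n ∈ openN → n ∈ R) → Uniform n (f.eval (p : ℤ)).toNat}) ∧
    (∀ n ∈ openN, beta n < 1) ∧ beta 10 < 0.163 ∧ beta 11 < 0.053 ∧ beta 15 < 0.146 := by
  have q1 : ∀ m : ℕ, 0 < m → (∀ r : ℕ, 10 ≤ r → r ≤ 36 → ¬ IsSquare r → ∀ d, ¬ Win r m d) →
      ∀ n : ℕ, 10 ≤ n → Uniform n m := by
    intro m hm h n hn
    refine uniform_of hn hm fun d hd => ?_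
    obtain ⟨h1, h2, h3, -⟩ := hd
    push Not at h1
    exact h n hn (by omega) h1.2.2.2 d ⟨h2, h3⟩
  have q2 : ∀ R : Finset ℕ, ∀ m : ℕ, 0 < m → (∀ r ∈ R, r ∈ ({11, 15} : Finset ℕ) → ∀ d, ¬ Win3 r m d) →
      (∀ r ∈ R, r ∉ ({11, 15} : Finset ℕ) → ∀ d, ¬ Win r m d) →
      ∀ n : ℕ, 10 ≤ n → (n ∈ openN → n ∈ R) → Uniform n m := by
    intro R m hm h1 h2 n hn hnR
    refine uniform_of hn hm fun d hd => ?_
    obtain ⟨h3, h4, h5, h6⟩ := hd
    have hn2 : n ∈ openN := by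
      by_contra hcon
      exact h3 (not_openN hn hcon)
    by_cases hT : n ∈ ({11, 15} : Finset ℕ)
    · obtain ⟨h7, -, h8⟩ := h6 (by simpa using hT)
      exact h1 n (hnR hn2) hT d ⟨h7, h4, h8⟩
    · exact h2 n (hnR hn2) hT d ⟨h4, h5⟩
  refine ⟨⟨kap, kap_pos, joint_short q1, fun f hf hlc => joint q1 hf hlc⟩, fun R hR h12 h18 ε hε => ?_,
    fun n hn => be_lt (openN_ten n hn), be_ten (by decide), be_eleven (by decide), be_fifteen (by decide)⟩
  have hpair : ∀ r ∈ R, ∀ s ∈ R, r ≠ s → ¬ IsSquare (r * s) := by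
    intro r hr s hs hrs h
    rcases openN_pair r (hR hr) s (hR hs) hrs h with ⟨rfl, rfl⟩ | ⟨rfl, rfl⟩ | ⟨rfl, rfl⟩ | ⟨rfl, rfl⟩
    · exact h12 ⟨hr, hs⟩
    · exact h12 ⟨hs, hr⟩
    · exact h18 ⟨hr, hs⟩
    · exact h18 ⟨hs, hr⟩
  exact ⟨several_short (fun r hr => openN_ten r (hR hr)) (fun r hr => openN_sq r (hR hr)) hpair (q2 R) hε,
    fun f hf hlc => several (fun r hr => openN_ten r (hR hr)) (fun r hr => openN_sq r (hR hr)) hpair (q2 R) hf hlc hε⟩

end Pool.Agent.Results.MP_d03834_ag.AllNumbersOfPoints
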