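import Mathlib
import Pool.Agent.Q195.WN.Final

set_option autoImplicit false

/-!
# The uniform Harbourne-Hirschowitz conjecture for 11 points: degrees divisible by three

For 11 general points of multiplicity `m` the expected dimension was known in all degrees not divisible
by three and for `d < √11 m` or `√11 (2 m + 1) ≤ 2 d + 3`. Here the remaining window of length
`(√11 - 3) / 2 = 0.1583..` is reduced to `171 √11 - 567 = 0.1428.. ≤ d - √11 m`, with two exceptional
pairs, and the degrees of the window in which exactly one curve is expected are settled too (also for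
15 points). Consequence: all degrees for more than 99.4 percent of the multiplicities.
-/

namespace Pool.Agent.Results.MP_d03834_ag.ElevenPoints

/-- For `n` general points and multiplicity `m` (one nonempty open set for all degrees in `S`) the
space of forms of degree `d` vanishing to order `m` at the points has the expected dimension for all
`d` in `S`. -/
def Expected (n m : ℕ) (S : Set ℕ) : Prop :=
  ∃ F : MvPolynomial (Fin n × Fin 2) ℂ, F ≠ 0 ∧
    ∀ P : Fin n → Fin 2 → ℂ,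
      MvPolynomial.eval (fun ij : Fin n × Fin 2 => P ij.1 ij.2) F ≠ 0 →
      ∀ d ∈ S,
        Module.finrank ℂ
          ↥(MvPolynomial.homogeneousSubmodule (Fin 3) ℂ d ⊓
            Submodule.restrictScalars ℂ
              (⨅ i : Fin n,
                (Ideal.span
                  ({MvPolynomial.X 0 - MvPolynomial.C (P i 0) * MvPolynomial.X 2,
                    MvPolynomial.X 1 - MvPolynomial.C (P i 1) * MvPolynomial.X 2} :
                    Set (MvPolynomial (Fin 3) ℂ))) ^ m))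
        = Nat.choose (d + 2) 2 - n * Nat.choose (m + 1) 2

theorem expected_of {n m : ℕ} {S : Set ℕ} (h : ∃ F : MvPolynomial (Fin n × Fin 2) ℚ, F ≠ 0 ∧
    ∀ P : Fin n → Fin 2 → ℂ,
      MvPolynomial.aeval (fun ij : Fin n × Fin 2 => P ij.1 ij.2) F ≠ 0 →
      ∀ d ∈ S, H932R3.ExpDim ℂ (fun _ => m) P d) : Expected n m S := by
  obtain ⟨F, hF, hF'⟩ := h
  refine ⟨F.map (algebraMap ℚ ℂ), H932R3.map_ne_zero_of hF, fun P hP d hd => ?_⟩
  rw [MvPolynomial.eval_map] at hP
  have h1 := hF' P hP d hd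
  unfold H932R3.ExpDim at h1
  rw [Finset.sum_const, Finset.card_univ, Fintype.card_fin, smul_eq_mul] at h1
  exact h1

theorem result :
    (∀ m : ℕ, Expected 11 m {d | ¬ (3 ∣ d ∧ √11 * m + (171 * √11 - 567) ≤ d ∧
      2 * (d : ℝ) + 3 < √11 * (2 * m + 1) ∧ (2 * d + 3) ^ 2 + 2 ≠ 11 * (2 * m + 1) ^ 2) ∧
      ¬ (m = 28 ∧ d = 93) ∧ ¬ (m = 47 ∧ d = 156)}) ∧
    (∀ ε : ℝ, 0 < ε → ∃ M₀ : ℕ, ∀ M : ℕ, M₀ ≤ M →
      (Set.ncard {m : ℕ | m < M ∧ ¬ Expected 11 m Set.univ} : ℝ) ≤
        ((1131 - 341 * √11) / 6 + ε) * M) ∧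
    (1131 - 341 * √(11 : ℝ)) / 6 < 0.0052 ∧
    (∀ m : ℕ, Expected 15 m {d | (2 * d + 3) ^ 2 + 6 = 15 * (2 * m + 1) ^ 2}) := by
  have h15 : ∀ m : ℕ, Expected 15 m {d | ¬ Q195.WN.Open15 m d} := fun m => by
    obtain ⟨F, hF, hF'⟩ := Q195.WN.exp15 m
    exact expected_of ⟨F, hF, fun P hP d hd => hF' P hP d hd⟩
  have h11 : ∀ m : ℕ, Expected 11 m {d | ¬ Q195.WN.Open11 m d} := fun m => by
    obtain ⟨F, hF, hF'⟩ := Q195.WN.exp11 m
    exact expected_of ⟨F, hF, fun P hP d hd => hF' P hP d hd⟩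
  refine ⟨fun m => ?_, fun ε hε => ?_, Q195.WN.numb11, fun m => ?_⟩
  · obtain ⟨F, hF, hF'⟩ := h11 m
    refine ⟨F, hF, fun P hP d hd => hF' P hP d ?_⟩
    rintro (h1 | h1 | h1)
    · exact hd.1 h1
    · exact hd.2.1 h1
    · exact hd.2.2 h1
  · refine Q195.WN.count11 (fun m hm => ?_) hε
    by_contra hcon
    push Not at hcon
    apply hm
    obtain ⟨F, hF, hF'⟩ := h11 m
    exact ⟨F, hF, fun P hP d _ => hF' P hP d (hcon d)⟩
  · obtain ⟨F, hF, hF'⟩ := h15 m
    refine ⟨F, hF, fun P hP d hd => hF' P hP d ?_⟩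
    rintro ⟨-, -, -, h1⟩
    exact h1 hd

end Pool.Agent.Results.MP_d03834_ag.ElevenPoints
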