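import Pool.Agent.Q241.FP.Core

set_option autoImplicit false

/-!
# The uniform Harbourne-Hirschowitz conjecture for all numbers `n > 9` of points at once, for explicit large multiplicities

For `k = 0`, and for all the `k` (a set with bounded gaps, by the return times of a rotation) for which `k √n` has
distance less than `1 / 241` to an integer for the 22 numbers `n` in `openNumbers`, the multiplicity
`m = 74602991693235067300949 + k` has the following property: for every `n > 9`, `n` general points of the complex
projective plane and every degree `d`, the space of the forms of degree `d` vanishing to order `m` at the `n` points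
has the expected dimension.
-/

namespace Pool.Agent.Results.MP_d03834_ag.EveryNumberOfPoints

open MvPolynomial

/-- the forms of degree `d` which vanish to order `m` at the points `(P i 0 : P i 1 : 1)` -/
noncomputable def forms {n : ℕ} (P : Fin n → Fin 2 → ℂ) (m d : ℕ) : Submodule ℂ (MvPolynomial (Fin 3) ℂ) :=
  homogeneousSubmodule (Fin 3) ℂ d ⊓ Submodule.restrictScalars ℂ
    (⨅ i : Fin n, (Ideal.span ({X 0 - C (P i 0) * X 2, X 1 - C (P i 1) * X 2} :
      Set (MvPolynomial (Fin 3) ℂ))) ^ m)

/-- for `n` general points (off one hypersurface `F = 0` for all degrees) and every degree `d` the space of the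
forms has the expected dimension (the subtraction is that of the natural numbers: `0` if it is negative) -/
def Expected (n m : ℕ) : Prop :=
  ∃ F : MvPolynomial (Fin n × Fin 2) ℂ, F ≠ 0 ∧ ∀ P : Fin n → Fin 2 → ℂ,
    eval (fun ij : Fin n × Fin 2 => P ij.1 ij.2) F ≠ 0 →
    ∀ d : ℕ, Module.finrank ℂ (forms P m d) = (d + 2).choose 2 - n * (m + 1).choose 2

theorem result (k : ℕ)
    (hk : ∀ n ∈ Pool.Agent.Q241.FP.openNumbers, ∃ f : ℤ, |(k : ℝ) * √(n : ℝ) - f| < 1 / 241) :
    ∀ n : ℕ, 9 < n → Expected n (74602991693235067300949 + k) := by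
  refine Pool.Agent.Q241.FP.explicit (p := fun m => ∀ n : ℕ, 9 < n → Expected n m) ?_ hk
  intro m hm hwin n hn
  obtain ⟨F, hF, hF'⟩ := Pool.Agent.Q241.FP.expDim_all (by omega : 10 ≤ n) hm hwin
  refine ⟨F.map (algebraMap ℚ ℂ), Pool.Agent.H932R3.map_ne_zero_of hF, fun P hP d => ?_⟩
  rw [eval_map] at hP
  have h := hF' P hP d
  unfold Pool.Agent.H932R3.ExpDim at h
  rw [Finset.sum_const, Finset.card_univ, Fintype.card_fin, smul_eq_mul] at h
  exact h

end Pool.Agent.Results.MP_d03834_ag.EveryNumberOfPoints
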