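import Mathlib
import Pool.Agent.Q251.SHA.Final
import Pool.Agent.TH641.NW.End2

set_option autoImplicit false

/-!
# The uniform Harbourne-Hirschowitz conjecture for 15 points, all degrees but a window of length 0.034

For 15 general points of the complex projective plane and every multiplicity `m` the space of forms of
degree `d` vanishing to order `m` at the points has the expected dimension for every degree `d` but those
divisible by three with `√15 m + (33 - 8 √15) / 5 ≤ d < √15 (m + 1 / 2) - 3 / 2` (an interval of length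
`0.0332..`). For 27 general points and every multiplicity `m ≥ 1` the same holds for all degrees but one,
and for all degrees divisible by three but those with `√27 m + 1 ≤ d < √27 (m + 1 / 2) - 3 / 2` (an interval
of length `0.098..`).
-/

namespace Pool.Agent.Results.MP_d03834_ag.FifteenAndTwentySevenPoints

theorem result :
    (∀ m : ℕ,
      ∃ F : MvPolynomial (Fin 15 × Fin 2) ℂ, F ≠ 0 ∧
        ∀ P : Fin 15 → Fin 2 → ℂ,
          MvPolynomial.eval (fun ij : Fin 15 × Fin 2 => P ij.1 ij.2) F ≠ 0 →
          ∀ d : ℕ, (¬ 3 ∣ d ∨ (d : ℝ) < √15 * m + (33 - 8 * √15) / 5 ∨ √15 * (2 * m + 1) ≤ 2 * d + 3) →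
            Module.finrank ℂ
              ↥(MvPolynomial.homogeneousSubmodule (Fin 3) ℂ d ⊓
                Submodule.restrictScalars ℂ
                  (⨅ i : Fin 15,
                    (Ideal.span
                      ({MvPolynomial.X 0 - MvPolynomial.C (P i 0) * MvPolynomial.X 2,
                        MvPolynomial.X 1 - MvPolynomial.C (P i 1) * MvPolynomial.X 2} :
                        Set (MvPolynomial (Fin 3) ℂ))) ^ m))
            = Nat.choose (d + 2) 2 - 15 * Nat.choose (m + 1) 2) ∧
    (∀ m : ℕ, 1 ≤ m → ∃ d₀ : ℕ,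
      ∃ F : MvPolynomial (Fin 27 × Fin 2) ℂ, F ≠ 0 ∧
        ∀ P : Fin 27 → Fin 2 → ℂ,
          MvPolynomial.eval (fun ij : Fin 27 × Fin 2 => P ij.1 ij.2) F ≠ 0 →
          ∀ d : ℕ, (d ≠ d₀ ∨ (3 ∣ d ∧ ((d : ℝ) < √27 * m + 1 ∨ √27 * (2 * m + 1) ≤ 2 * d + 3))) →
            Module.finrank ℂ
              ↥(MvPolynomial.homogeneousSubmodule (Fin 3) ℂ d ⊓
                Submodule.restrictScalars ℂ
                  (⨅ i : Fin 27,
                    (Ideal.span
                      ({MvPolynomial.X 0 - MvPolynomial.C (P i 0) * MvPolynomial.X 2,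
                        MvPolynomial.X 1 - MvPolynomial.C (P i 1) * MvPolynomial.X 2} :
                        Set (MvPolynomial (Fin 3) ℂ))) ^ m))
            = Nat.choose (d + 2) 2 - 27 * Nat.choose (m + 1) 2) := by
  constructor
  · intro m
    obtain ⟨F, hF, hF'⟩ := Q251.SHA.expDim15 m
    refine ⟨F.map (algebraMap ℚ ℂ), H932R3.map_ne_zero_of hF, fun P hP d hd => ?_⟩
    rw [MvPolynomial.eval_map] at hP
    have h1 := hF' P hP d (by
      rcases hd with hd | hd | hd
      · exact Or.inl hd
      · exact Or.inr (Or.inl (by linarith))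
      · exact Or.inr (Or.inr hd))
    unfold H932R3.ExpDim at h1
    rw [Finset.sum_const, Finset.card_univ, Fintype.card_fin, smul_eq_mul] at h1
    exact h1
  · intro m hm
    obtain ⟨F1, hF1, hF1'⟩ := TH641.NW.expDim_all_but_one (L := ℂ) (n := 27) (by norm_num) hm
    obtain ⟨F2, hF2, hF2'⟩ := Q251.SHA.expDim27 m
    refine ⟨TH641.NW.dcrit 27 m, (F1 * F2).map (algebraMap ℚ ℂ),
      H932R3.map_ne_zero_of (mul_ne_zero hF1 hF2), fun P hP d hd => ?_⟩
    rw [MvPolynomial.eval_map] at hP
    have hP' : MvPolynomial.aeval (fun ij : Fin 27 × Fin 2 => P ij.1 ij.2) (F1 * F2) ≠ 0 := hP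
    rw [map_mul] at hP'
    have h1 : H932R3.ExpDim ℂ (fun _ => m) P d := by
      rcases hd with hd | hd
      · exact hF1' P (left_ne_zero_of_mul hP') d hd
      · exact hF2' P (right_ne_zero_of_mul hP') d hd
    unfold H932R3.ExpDim at h1
    rw [Finset.sum_const, Finset.card_univ, Fintype.card_fin, smul_eq_mul] at h1
    exact h1

end Pool.Agent.Results.MP_d03834_ag.FifteenAndTwentySevenPoints
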